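import Mathlib

set_option autoImplicit false

/-!
# Good and Verdier good maps of triangles
-/

open CategoryTheory Category Limits Pretriangulated Triangulated

namespace Q5.GoodTri

variable {C : Type*} [Category C] [HasZeroObject C] [HasShift C ℤ] [Preadditive C]
  [∀ n : ℤ, (shiftFunctor C n).Additive] [Pretriangulated C]

/-- A map `(f, g, h)` from the exact triangle `X → Y → Z → X⟦1⟧` with the maps `u, v, w` to the exact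
triangle `X' → Y' → Z' → X'⟦1⟧` with the maps `u', v', w'` is Verdier good if, for exact triangles
`X → Y' → A → X⟦1⟧` on `u ≫ g`, `Y → Y' → Y'' → Y⟦1⟧` on `g` and `X → X' → X'' → X⟦1⟧` on `f`, there are
octahedra for `X → Y → Y'` and for `X → X' → Y'` such that `h` is the composite `Z → A → Z'`. -/
def VerdierGood {X Y Z X' Y' Z' : C} {u : X ⟶ Y} {v : Y ⟶ Z} {w : Z ⟶ X⟦(1 : ℤ)⟧}
    {u' : X' ⟶ Y'} {v' : Y' ⟶ Z'} {w' : Z' ⟶ X'⟦(1 : ℤ)⟧}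
    (hT : Triangle.mk u v w ∈ distTriang C) (hT' : Triangle.mk u' v' w' ∈ distTriang C)
    (f : X ⟶ X') (g : Y ⟶ Y') (h : Z ⟶ Z') : Prop :=
  ∃ (A Y'' X'' : C) (vt : Y' ⟶ A) (wt : A ⟶ X⟦(1 : ℤ)⟧)
    (g' : Y' ⟶ Y'') (g'' : Y'' ⟶ Y⟦(1 : ℤ)⟧) (f' : X' ⟶ X'') (f'' : X'' ⟶ X⟦(1 : ℤ)⟧)
    (hA : Triangle.mk (u ≫ g) vt wt ∈ distTriang C)
    (hg : Triangle.mk g g' g'' ∈ distTriang C) (hf : Triangle.mk f f' f'' ∈ distTriang C)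
    (comm : f ≫ u' = u ≫ g) (O₁ : Octahedron rfl hT hg hA) (O₂ : Octahedron comm hf hT' hA),
    h = O₁.m₁ ≫ O₂.m₃

/-- A map of exact triangles is Verdier good. -/
def IsVerdierGood {T T' : Triangle C} (hT : T ∈ distTriang C) (hT' : T' ∈ distTriang C)
    (φ : T ⟶ T') : Prop :=
  VerdierGood hT hT' φ.hom₁ φ.hom₂ φ.hom₃

/-- The mapping cone `Y ⊞ X' → Z ⊞ Y' → X⟦1⟧ ⊞ Z' → (Y ⊞ X')⟦1⟧` of `(f, g, h)`, with the matrices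
`(-v, 0; g, u')`, `(-w, 0; h, v')`, `(-u⟦1⟧, 0; f⟦1⟧, w')`. -/
noncomputable def cone {X Y Z X' Y' Z' : C} (u : X ⟶ Y) (v : Y ⟶ Z) (w : Z ⟶ X⟦(1 : ℤ)⟧)
    (u' : X' ⟶ Y') (v' : Y' ⟶ Z') (w' : Z' ⟶ X'⟦(1 : ℤ)⟧)
    (f : X ⟶ X') (g : Y ⟶ Y') (h : Z ⟶ Z') : Triangle C :=
  Triangle.mk (X := Y ⊞ X') (Y := Z ⊞ Y') (Z := (X⟦(1 : ℤ)⟧) ⊞ Z')
    (biprod.desc (-(v ≫ biprod.inl) + g ≫ biprod.inr) (u' ≫ biprod.inr))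
    (biprod.desc (-(w ≫ biprod.inl) + h ≫ biprod.inr) (v' ≫ biprod.inr))
    (biprod.desc (-(u⟦(1 : ℤ)⟧' ≫ biprod.inl⟦(1 : ℤ)⟧') + f⟦(1 : ℤ)⟧' ≫ biprod.inr⟦(1 : ℤ)⟧')
      (w' ≫ biprod.inr⟦(1 : ℤ)⟧'))

/-- A map of triangles is good if its mapping cone is an exact triangle. -/
def IsGood {T T' : Triangle C} (φ : T ⟶ T') : Prop :=
  cone T.mor₁ T.mor₂ T.mor₃ T'.mor₁ T'.mor₂ T'.mor₃ φ.hom₁ φ.hom₂ φ.hom₃ ∈ distTriang C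

/-- Two maps `(f, g, h)` and `(f₁, g₁, h₁)` between the same triangles are chain homotopic: there are
`k₁ : Y ⟶ X'`, `k₂ : Z ⟶ Y'`, `k₃ : X⟦1⟧ ⟶ Z'` with `f - f₁ = u ≫ k₁ + (k₃ ≫ w')⟦-1⟧` (stated after
applying the shift), `g - g₁ = k₁ ≫ u' + v ≫ k₂` and `h - h₁ = k₂ ≫ v' + w ≫ k₃`. -/
def Homotopic {X Y Z X' Y' Z' : C} (u : X ⟶ Y) (v : Y ⟶ Z) (w : Z ⟶ X⟦(1 : ℤ)⟧)
    (u' : X' ⟶ Y') (v' : Y' ⟶ Z') (w' : Z' ⟶ X'⟦(1 : ℤ)⟧)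
    (f f₁ : X ⟶ X') (g g₁ : Y ⟶ Y') (h h₁ : Z ⟶ Z') : Prop :=
  ∃ (k₁ : Y ⟶ X') (k₂ : Z ⟶ Y') (k₃ : X⟦(1 : ℤ)⟧ ⟶ Z'),
    (f - f₁)⟦(1 : ℤ)⟧' = (u ≫ k₁)⟦(1 : ℤ)⟧' + k₃ ≫ w' ∧
    g - g₁ = k₁ ≫ u' + v ≫ k₂ ∧ h - h₁ = k₂ ≫ v' + w ≫ k₃

/-- Two maps of triangles are chain homotopic. -/
def ChainHomotopic {T T' : Triangle C} (φ ψ : T ⟶ T') : Prop :=
  Homotopic T.mor₁ T.mor₂ T.mor₃ T'.mor₁ T'.mor₂ T'.mor₃ φ.hom₁ ψ.hom₁ φ.hom₂ ψ.hom₂ φ.hom₃ ψ.hom₃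

end Q5.GoodTri
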