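import Pool.Agent.Q5.GoodTri.Neg

set_option autoImplicit false

/-!
# The example in the derived category of abelian groups
-/

open CategoryTheory Category Limits Pretriangulated Triangulated Preadditive

namespace Q5.GoodTri

/-- The category of abelian groups. -/
abbrev Ab0 : Type 1 := ModuleCat.{0} ℤ

noncomputable instance : HasDerivedCategory.{1} Ab0 := HasDerivedCategory.standard _

/-- The derived category of abelian groups. -/
abbrev DAb : Type 1 := DerivedCategory Ab0

/-- An abelian group as a complex in degree zero. -/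
noncomputable abbrev dg : Ab0 ⥤ DAb := DerivedCategory.singleFunctor Ab0 0

/-- There are no nonzero maps of negative degree between objects in degree zero. -/
theorem hom_shift_zero (X Y : Ab0) (θ : (dg.obj X)⟦(1 : ℤ)⟧ ⟶ dg.obj Y) : θ = 0 := by
  have h1 : DerivedCategory.TStructure.t.IsLE ((dg.obj X)⟦(1 : ℤ)⟧) (-1) :=
    DerivedCategory.TStructure.t.isLE_shift (dg.obj X) 0 1 (-1) (by norm_num)
  exact DerivedCategory.TStructure.t.zero θ (-1) 0 (by norm_num)

/-- The group `ℤ / n`. -/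
abbrev cyc (n : ℕ) : Ab0 := ModuleCat.of ℤ (ZMod n)

/-- The map `ℤ / 4 → ℤ / 8`, `x ↦ 2 x`. -/
def uFun : ZMod 4 →+ ZMod 8 := AddMonoidHom.mk' (fun x => 2 * (x.val : ZMod 8)) (by decide)

/-- The projection `ℤ / 8 → ℤ / 4`. -/
def gFun : ZMod 8 →+ ZMod 4 := AddMonoidHom.mk' (fun x => (x.val : ZMod 4)) (by decide)

/-- The map `ℤ / 4 → ℤ / 8`, `x ↦ 2 x`, in the category of abelian groups. -/
def uAb : cyc 4 ⟶ cyc 8 := ModuleCat.ofHom uFun.toIntLinearMap

/-- The projection `ℤ / 8 → ℤ / 4` in the category of abelian groups. -/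
def gAb : cyc 8 ⟶ cyc 4 := ModuleCat.ofHom gFun.toIntLinearMap

theorem nilAb : uAb ≫ gAb ≫ uAb ≫ gAb = 0 := by
  ext x
  have h : ∀ x : ZMod 4, gFun (uFun (gFun (uFun x))) = 0 := by decide
  exact h x

theorem liftAb (t : cyc 8 ⟶ cyc 8) (h1 : uAb ≫ t = uAb ≫ gAb ≫ uAb) : t ≫ gAb ≠ 0 := by
  intro h2
  have e1 : t.hom (uFun (1 : ZMod 4)) = uFun (gFun (uFun (1 : ZMod 4))) :=
    congrArg (fun f : cyc 4 ⟶ cyc 8 => f.hom (1 : ZMod 4)) h1
  have e2 : gFun (t.hom (1 : ZMod 8)) = 0 :=
    congrArg (fun f : cyc 8 ⟶ cyc 4 => f.hom (1 : ZMod 8)) h2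
  have e3 : uFun (1 : ZMod 4) = (1 : ZMod 8) + 1 := by decide
  have e4 : t.hom ((1 : ZMod 8) + 1) = (t.hom (1 : ZMod 8) : ZMod 8) + (t.hom (1 : ZMod 8) : ZMod 8) :=
    map_add t.hom _ _
  rw [e3, e4, ← e3] at e1
  have key : ∀ y : ZMod 8, y + y = uFun (gFun (uFun (1 : ZMod 4))) → gFun y ≠ 0 := by decide
  exact key _ e1 e2

/-- The hypotheses hold in the derived category. -/
theorem hyp : Hyp (dg.map uAb) (dg.map gAb) where
  nil := by
    rw [← Functor.map_comp, ← Functor.map_comp, ← Functor.map_comp, nilAb, Functor.map_zero]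
  lift := by
    intro t ht h0
    obtain ⟨s, rfl⟩ := dg.map_surjective t
    rw [← Functor.map_comp, ← Functor.map_comp, ← Functor.map_comp] at ht
    rw [← Functor.map_comp] at h0
    apply liftAb s (dg.map_injective ht)
    apply dg.map_injective
    rw [h0, Functor.map_zero]
  hom := hom_shift_zero _ _

end Q5.GoodTri
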