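import Pool.Agent.Q5.GoodTri.Twist
import Pool.Agent.Q5.GoodTri.Example

set_option autoImplicit false

/-!
# The second example in the derived category of abelian groups
-/

open CategoryTheory Category Limits Pretriangulated Triangulated Preadditive

namespace Q5.GoodTri

/-- The group `ℤ / m × ℤ / n`. -/
abbrev cyc2 (m n : ℕ) : Ab0 := ModuleCat.of ℤ (ZMod m × ZMod n)

/-- The map `ℤ / 8 → ℤ / 4 × ℤ / 16`, `1 ↦ (0, 2)`. -/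
def g2 : ZMod 8 →+ ZMod 4 × ZMod 16 :=
  AddMonoidHom.mk' (fun x => (0, 2 * (x.val : ZMod 16))) (by decide)

/-- The map `ℤ / 4 → ℤ / 4 × ℤ / 8`, `1 ↦ (1, 0)`. -/
def f2 : ZMod 4 →+ ZMod 4 × ZMod 8 := AddMonoidHom.inl _ _

/-- The map `ℤ / 4 × ℤ / 8 → ℤ / 4 × ℤ / 16`, `(1, 0) ↦ (0, 4)`, `(0, 1) ↦ (1, 2)`. -/
def u2 : ZMod 4 × ZMod 8 →+ ZMod 4 × ZMod 16 :=
  AddMonoidHom.coprod (AddMonoidHom.mk' (fun x : ZMod 4 => (0, 4 * (x.val : ZMod 16))) (by decide))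
    (AddMonoidHom.mk' (fun x : ZMod 8 => ((x.val : ZMod 4), 2 * (x.val : ZMod 16))) (by decide))

/-- The map `ℤ / 4 × ℤ / 8 → ℤ / 4`, `(1, 0) ↦ 2`, `(0, 1) ↦ 0`. -/
def c2 : ZMod 4 × ZMod 8 →+ ZMod 4 :=
  (AddMonoidHom.mk' (fun x : ZMod 4 => 2 * x) (by decide)).comp (AddMonoidHom.fst _ _)

/-- The map `ℤ / 4 × ℤ / 16 → ℤ / 8`, `(1, 0) ↦ -2`, `(0, 1) ↦ 1`. -/
def l2 : ZMod 4 × ZMod 16 →+ ZMod 8 :=
  AddMonoidHom.coprod (AddMonoidHom.mk' (fun x : ZMod 4 => -2 * (x.val : ZMod 8)) (by decide))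
    (AddMonoidHom.mk' (fun x : ZMod 16 => (x.val : ZMod 8)) (by decide))

/-- The map `ℤ / 4 × ℤ / 16 → ℤ / 4 × ℤ / 8`, `(1, 0) ↦ (0, -2)`, `(0, 1) ↦ (0, 1)`. -/
def q2 : ZMod 4 × ZMod 16 →+ ZMod 4 × ZMod 8 := (AddMonoidHom.inr _ _).comp l2

/-- The map `u : ℤ / 4 → ℤ / 8`. -/
abbrev uA : cyc 4 ⟶ cyc 8 := uAb

/-- The map `g : ℤ / 8 → ℤ / 4 × ℤ / 16`. -/
def gA : cyc 8 ⟶ cyc2 4 16 := ModuleCat.ofHom g2.toIntLinearMap

/-- The map `f : ℤ / 4 → ℤ / 4 × ℤ / 8`. -/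
def fA : cyc 4 ⟶ cyc2 4 8 := ModuleCat.ofHom f2.toIntLinearMap

/-- The map `u' : ℤ / 4 × ℤ / 8 → ℤ / 4 × ℤ / 16`. -/
def uA' : cyc2 4 8 ⟶ cyc2 4 16 := ModuleCat.ofHom u2.toIntLinearMap

/-- The map `c : ℤ / 4 × ℤ / 8 → ℤ / 4`. -/
def cA : cyc2 4 8 ⟶ cyc 4 := ModuleCat.ofHom c2.toIntLinearMap

/-- The map `l : ℤ / 4 × ℤ / 16 → ℤ / 8`. -/
def lA : cyc2 4 16 ⟶ cyc 8 := ModuleCat.ofHom l2.toIntLinearMap

/-- The map `q : ℤ / 4 × ℤ / 16 → ℤ / 4 × ℤ / 8`. -/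
def qA : cyc2 4 16 ⟶ cyc2 4 8 := ModuleCat.ofHom q2.toIntLinearMap

/-- The map `p : ℤ / 8 → ℤ / 4`. -/
abbrev pA : cyc 8 ⟶ cyc 4 := gAb

/-- Morphisms of abelian groups are equal if they have the same values. -/
theorem ext_fun {A B : Type} [AddCommGroup A] [AddCommGroup B]
    {s t : ModuleCat.of ℤ A ⟶ ModuleCat.of ℤ B} (h : ∀ x : A, s.hom x = t.hom x) : s = t := by
  ext x
  exact h x

theorem commA : uA ≫ gA = fA ≫ uA' :=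
  ext_fun (show ∀ x : ZMod 4, g2 (uFun x) = u2 (f2 x) by decide)

theorem r₁A : cA ≫ uA = uA' ≫ lA :=
  ext_fun (show ∀ x : ZMod 4 × ZMod 8, uFun (c2 x) = l2 (u2 x) by decide)

theorem r₂A : uA' ≫ qA ≫ uA' = uA' ≫ lA ≫ gA :=
  ext_fun (show ∀ x : ZMod 4 × ZMod 8, u2 (q2 (u2 x)) = g2 (l2 (u2 x)) by decide)

theorem r₃A : fA ≫ cA = uA ≫ pA :=
  ext_fun (show ∀ x : ZMod 4, c2 (f2 x) = gFun (uFun x) by decide)

theorem r₄A : cA ≫ fA ≫ cA = 0 :=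
  ext_fun (show ∀ x : ZMod 4 × ZMod 8, c2 (f2 (c2 x)) = 0 by decide)

theorem r₅A : cA ≫ fA ≫ uA' ≫ qA = 0 :=
  ext_fun (show ∀ x : ZMod 4 × ZMod 8, q2 (u2 (f2 (c2 x))) = 0 by decide)

theorem c₁A (t : cyc 8 ⟶ cyc 4) (h : uA ≫ t ≫ uA ≫ gA = 0) : uA ≫ t = 0 := by
  refine ext_fun (fun x => ?_)
  have h1 : g2 (uFun (t.hom (uFun x))) = 0 :=
    congrArg (fun f : cyc 4 ⟶ cyc2 4 16 => f.hom x) h
  have key : ∀ y : ZMod 4, g2 (uFun y) = 0 → y = 0 := by decide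
  exact key _ h1

theorem c₂A (t : cyc2 4 16 ⟶ cyc2 4 8) (h : (uA ≫ gA) ≫ t ≫ uA' = 0) : (uA ≫ gA) ≫ t = 0 := by
  refine ext_fun (fun x => ?_)
  have h1 : u2 (t.hom (g2 (uFun x))) = 0 :=
    congrArg (fun f : cyc 4 ⟶ cyc2 4 16 => f.hom x) h
  show t.hom (g2 (uFun x)) = 0
  have h2 : ∀ x : ZMod 4, g2 (uFun x) = (4 * x.val) • ((0, 1) : ZMod 4 × ZMod 16) := by decide
  have h3 : t.hom (g2 (uFun x)) = (4 * x.val) • (t.hom ((0, 1) : ZMod 4 × ZMod 16) :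
      ZMod 4 × ZMod 8) := by
    rw [h2, map_nsmul]
  rw [h3] at h1 ⊢
  have key : ∀ (x : ZMod 4) (y : ZMod 4 × ZMod 8), u2 ((4 * x.val) • y) = 0 →
      (4 * x.val) • y = 0 := by decide
  exact key _ _ h1

theorem c₄A (t : cyc 8 ⟶ cyc2 4 8) (h : uA ≫ t = fA ≫ (uA' ≫ qA - cA ≫ fA)) : t ≫ uA' ≠ 0 := by
  intro h2
  have e1 : t.hom (uFun (1 : ZMod 4)) = q2 (u2 (f2 1)) - f2 (c2 (f2 1)) :=
    congrArg (fun f : cyc 4 ⟶ cyc2 4 8 => f.hom (1 : ZMod 4)) h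
  have e2 : u2 (t.hom (1 : ZMod 8)) = 0 :=
    congrArg (fun f : cyc 8 ⟶ cyc2 4 16 => f.hom (1 : ZMod 8)) h2
  have e3 : uFun (1 : ZMod 4) = (1 : ZMod 8) + 1 := by decide
  have e4 : t.hom ((1 : ZMod 8) + 1) = (t.hom (1 : ZMod 8) : ZMod 4 × ZMod 8) +
      (t.hom (1 : ZMod 8) : ZMod 4 × ZMod 8) := map_add t.hom _ _
  rw [e3, e4] at e1
  have key : ∀ y : ZMod 4 × ZMod 8, y + y = q2 (u2 (f2 1)) - f2 (c2 (f2 1)) → u2 y ≠ 0 := by decide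
  exact key _ e1 e2

/-- The hypotheses hold in the derived category. -/
theorem twistHyp : TwistHyp (dg.map uA) (dg.map gA) (dg.map fA) (dg.map uA') (dg.map cA)
    (dg.map lA) (dg.map qA) (dg.map pA) where
  comm := by rw [← Functor.map_comp, ← Functor.map_comp, commA]
  r₁ := by rw [← Functor.map_comp, ← Functor.map_comp, r₁A]
  r₂ := by simp only [← Functor.map_comp]; rw [r₂A]
  r₃ := by rw [← Functor.map_comp, ← Functor.map_comp, r₃A]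
  r₄ := by simp only [← Functor.map_comp]; rw [r₄A, Functor.map_zero]
  r₅ := by simp only [← Functor.map_comp]; rw [r₅A, Functor.map_zero]
  c₁ := by
    intro t ht
    obtain ⟨s, rfl⟩ := dg.map_surjective t
    simp only [← Functor.map_comp] at ht ⊢
    rw [c₁A s (dg.map_injective (ht.trans (Functor.map_zero _ _ _).symm)), Functor.map_zero]
  c₂ := by
    intro t ht
    obtain ⟨s, rfl⟩ := dg.map_surjective t
    simp only [← Functor.map_comp] at ht ⊢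
    rw [c₂A s (dg.map_injective (ht.trans (Functor.map_zero _ _ _).symm)), Functor.map_zero]
  c₃ := hom_shift_zero _ _
  c₃' := hom_shift_zero _ _
  c₄ := by
    intro t ht h0
    obtain ⟨s, rfl⟩ := dg.map_surjective t
    simp only [← Functor.map_comp, ← Functor.map_sub] at ht h0
    exact c₄A s (dg.map_injective ht) (dg.map_injective (h0.trans (Functor.map_zero _ _ _).symm))

end Q5.GoodTri
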