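import Pool.Agent.Q5.GoodTri.Defs

set_option autoImplicit false

/-!
# Existence of good fill-ins (Neeman)
-/

open CategoryTheory Category Limits Pretriangulated Triangulated Preadditive

namespace Q5.GoodTri

variable {C : Type*} [Category C] [HasZeroObject C] [HasShift C ℤ] [Preadditive C]
  [∀ n : ℤ, (shiftFunctor C n).Additive] [Pretriangulated C]

/-- The sum of a distinguished triangle and a contractible triangle. -/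
theorem sum_contractible {A B E : C} {a : A ⟶ B} {b : B ⟶ E} {c : E ⟶ A⟦(1 : ℤ)⟧}
    (hT : Triangle.mk a b c ∈ distTriang C) (W : C) :
    Triangle.mk (biprod.map (𝟙 W) a) (biprod.snd ≫ b) (c ≫ (biprod.inr : A ⟶ W ⊞ A)⟦(1 : ℤ)⟧') ∈
      distTriang C := by
  obtain ⟨F, p, r, hF⟩ := distinguished_cocone_triangle (biprod.map (𝟙 W) a)
  obtain ⟨e, he₁, he₂⟩ := complete_distinguished_triangle_morphism _ _ hF hT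
    (biprod.snd : W ⊞ A ⟶ A) (biprod.snd : W ⊞ B ⟶ B) (by
      show biprod.map (𝟙 W) a ≫ biprod.snd = biprod.snd ≫ a
      simp)
  obtain ⟨j, hj₁, hj₂⟩ := complete_distinguished_triangle_morphism _ _ hT hF
    (biprod.inr : A ⟶ W ⊞ A) (biprod.inr : B ⟶ W ⊞ B) (by
      show a ≫ biprod.inr = biprod.inr ≫ biprod.map (𝟙 W) a
      simp)
  change F ⟶ E at e
  change E ⟶ F at j
  change p ≫ e = biprod.snd ≫ b at he₁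
  change r ≫ (biprod.snd : W ⊞ A ⟶ A)⟦(1 : ℤ)⟧' = e ≫ c at he₂
  change b ≫ j = biprod.inr ≫ p at hj₁
  change c ≫ (biprod.inr : A ⟶ W ⊞ A)⟦(1 : ℤ)⟧' = j ≫ r at hj₂
  have hp : biprod.map (𝟙 W) a ≫ p = 0 := comp_distTriang_mor_zero₁₂ _ hF
  have hr : r ≫ (biprod.map (𝟙 W) a)⟦(1 : ℤ)⟧' = 0 := comp_distTriang_mor_zero₃₁ _ hF
  have hinl : (biprod.inl : W ⟶ W ⊞ B) ≫ p = 0 := by
    have : (biprod.inl : W ⟶ W ⊞ B) = biprod.inl ≫ biprod.map (𝟙 W) a := by simp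
    rw [this, assoc, hp, comp_zero]
  have hfst : r ≫ (biprod.fst : W ⊞ A ⟶ W)⟦(1 : ℤ)⟧' = 0 := by
    have : (biprod.fst : W ⊞ A ⟶ W) = biprod.map (𝟙 W) a ≫ biprod.fst := by simp
    rw [this, Functor.map_comp, ← assoc, hr, zero_comp]
  have hp2 : biprod.snd ≫ biprod.inr ≫ p = p := by
    have : p = (biprod.fst ≫ biprod.inl + biprod.snd ≫ biprod.inr) ≫ p := by
      rw [biprod.total, id_comp]
    conv_rhs => rw [this]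
    rw [add_comp, assoc, hinl, comp_zero, zero_add, assoc]
  have hr2 : r ≫ (biprod.snd : W ⊞ A ⟶ A)⟦(1 : ℤ)⟧' ≫ (biprod.inr : A ⟶ W ⊞ A)⟦(1 : ℤ)⟧' = r := by
    have : r = r ≫ (biprod.fst ≫ biprod.inl + biprod.snd ≫ biprod.inr : W ⊞ A ⟶ W ⊞ A)⟦(1 : ℤ)⟧' := by
      rw [biprod.total, CategoryTheory.Functor.map_id, comp_id]
    conv_rhs => rw [this]
    rw [Functor.map_add, comp_add, Functor.map_comp, Functor.map_comp, reassoc_of% hfst,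
      zero_comp, zero_add]
  -- `e ≫ j` is invertible
  set k : F ⟶ F := 𝟙 F - e ≫ j with hk
  have hk₁ : p ≫ k = 0 := by
    rw [hk, comp_sub, comp_id, ← assoc, he₁, assoc, hj₁, hp2, sub_self]
  have hk₂ : k ≫ r = 0 := by
    rw [hk, sub_comp, id_comp, assoc, ← hj₂, ← assoc, ← he₂, assoc, hr2, sub_self]
  obtain ⟨κ, hκ⟩ : ∃ κ : (W ⊞ A)⟦(1 : ℤ)⟧ ⟶ F, k = r ≫ κ := Triangle.yoneda_exact₃ _ hF k hk₁
  have hkk : k ≫ k = 0 := by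
    have h1 : k ≫ k = (k ≫ r) ≫ κ := by rw [assoc, ← hκ]
    rw [h1, hk₂, zero_comp]
  have hej : e ≫ j ≫ (𝟙 F + k) = 𝟙 F := by
    have h1 : e ≫ j = 𝟙 F - k := by rw [hk, sub_sub_cancel]
    rw [← assoc, h1, sub_comp, comp_add, comp_add, hkk]
    simp
  -- `j ≫ e` is invertible
  have hje : IsIso (j ≫ e) := by
    let φ : Triangle.mk a b c ⟶ Triangle.mk a b c := Triangle.homMk _ _ (𝟙 A) (𝟙 B) (j ≫ e)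
      (by
        show a ≫ 𝟙 B = 𝟙 A ≫ a
        rw [comp_id, id_comp]) (by
        show b ≫ j ≫ e = 𝟙 B ≫ b
        rw [← assoc, hj₁, assoc, he₁]
        simp) (by
        show c ≫ (𝟙 A)⟦(1 : ℤ)⟧' = (j ≫ e) ≫ c
        rw [assoc, ← he₂, ← assoc, ← hj₂, assoc, ← Functor.map_comp, biprod.inr_snd])
    have h1 : IsIso φ.hom₁ := inferInstanceAs (IsIso (𝟙 A))
    have h2 : IsIso φ.hom₂ := inferInstanceAs (IsIso (𝟙 B))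
    exact isIso₃_of_isIso₁₂ φ hT hT h1 h2
  have he : IsIso e := by
    refine ⟨j ≫ (𝟙 F + k), hej, ?_⟩
    have h1 : (inv (j ≫ e) ≫ j) ≫ e = 𝟙 E := by rw [assoc, IsIso.inv_hom_id]
    have h2 : inv (j ≫ e) ≫ j = j ≫ (𝟙 F + k) := by
      calc inv (j ≫ e) ≫ j = (inv (j ≫ e) ≫ j) ≫ e ≫ j ≫ (𝟙 F + k) := by rw [hej, comp_id]
        _ = ((inv (j ≫ e) ≫ j) ≫ e) ≫ j ≫ (𝟙 F + k) := by simp only [assoc]
        _ = j ≫ (𝟙 F + k) := by rw [h1, id_comp]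
    rw [← h2, h1]
  let ei : F ≅ E := asIso e
  refine isomorphic_distinguished _ hF _ (Iso.symm ?_)
  refine Triangle.isoMk _ _ (Iso.refl _) (Iso.refl _) ei ?_ ?_ ?_
  · show biprod.map (𝟙 W) a ≫ 𝟙 _ = 𝟙 _ ≫ biprod.map (𝟙 W) a
    simp
  · show p ≫ e = 𝟙 _ ≫ biprod.snd ≫ b
    rw [he₁, id_comp]
  · show r ≫ (𝟙 _)⟦(1 : ℤ)⟧' = e ≫ c ≫ (biprod.inr : A ⟶ W ⊞ A)⟦(1 : ℤ)⟧'
    rw [← assoc e, ← he₂, assoc, hr2, CategoryTheory.Functor.map_id, comp_id]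

/-- A variant of `sum_contractible` with identifications of the first two objects. -/
theorem sum_contractible' {A B E : C} {a : A ⟶ B} {b : B ⟶ E} {c : E ⟶ A⟦(1 : ℤ)⟧}
    (hT : Triangle.mk a b c ∈ distTriang C) {W S R : C} (σ : S ≅ W ⊞ A) (ρ : R ≅ W ⊞ B)
    (P : S ⟶ R) (hP : P ≫ ρ.hom = σ.hom ≫ biprod.map (𝟙 W) a) :
    Triangle.mk P (ρ.hom ≫ biprod.snd ≫ b)
      (c ≫ (biprod.inr : A ⟶ W ⊞ A)⟦(1 : ℤ)⟧' ≫ σ.inv⟦(1 : ℤ)⟧') ∈ distTriang C := by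
  refine isomorphic_distinguished _ (sum_contractible hT W) _ ?_
  refine Triangle.isoMk _ _ σ ρ (Iso.refl _) ?_ ?_ ?_
  · exact hP
  · show (ρ.hom ≫ biprod.snd ≫ b) ≫ 𝟙 _ = ρ.hom ≫ biprod.snd ≫ b
    rw [comp_id]
  · show (c ≫ (biprod.inr : A ⟶ W ⊞ A)⟦(1 : ℤ)⟧' ≫ σ.inv⟦(1 : ℤ)⟧') ≫ σ.hom⟦(1 : ℤ)⟧' =
      𝟙 _ ≫ c ≫ (biprod.inr : A ⟶ W ⊞ A)⟦(1 : ℤ)⟧'
    rw [assoc, assoc, ← Functor.map_comp, Iso.inv_hom_id, CategoryTheory.Functor.map_id, comp_id,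
      id_comp]

/-- Changing two signs in a distinguished triangle. -/
theorem neg_distinguished {A B E : C} {a : A ⟶ B} {b : B ⟶ E} {c : E ⟶ A⟦(1 : ℤ)⟧}
    (hT : Triangle.mk a b c ∈ distTriang C) : Triangle.mk (-a) (-b) c ∈ distTriang C := by
  refine isomorphic_distinguished _ hT _ ?_
  let ν : B ≅ B := ⟨-𝟙 B, -𝟙 B, by simp, by simp⟩
  refine Triangle.isoMk _ _ (Iso.refl A) ν (Iso.refl E) ?_ ?_ ?_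
  · show (-a) ≫ (-𝟙 B) = 𝟙 A ≫ a
    simp
  · show (-b) ≫ 𝟙 E = (-𝟙 B) ≫ b
    simp
  · show c ≫ (𝟙 A)⟦(1 : ℤ)⟧' = 𝟙 E ≫ c
    simp

/-- The last step of the construction of good fill-ins. -/
theorem exists_good_aux {X Y Z X' Y' Z' : C}
    {u : X ⟶ Y} {v : Y ⟶ Z} {w : Z ⟶ X⟦(1 : ℤ)⟧}
    {u' : X' ⟶ Y'} {v' : Y' ⟶ Z'} {w' : Z' ⟶ X'⟦(1 : ℤ)⟧}
    (hT' : Triangle.mk u' v' w' ∈ distTriang C)
    (f : X ⟶ X') (g : Y ⟶ Y') (comm : u ≫ g = f ≫ u')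
    {E : C} {q : Z ⊞ Y' ⟶ E} {r : E ⟶ (Y ⊞ X')⟦(1 : ℤ)⟧}
    (hE : Triangle.mk (biprod.desc (-(v ≫ biprod.inl) + g ≫ biprod.inr) (u' ≫ biprod.inr) :
      Y ⊞ X' ⟶ Z ⊞ Y') q r ∈ distTriang C)
    {α : Z' ⟶ E} {β : E ⟶ X⟦(1 : ℤ)⟧}
    (e₁ : (biprod.inr : Y' ⟶ Z ⊞ Y') ≫ q = v' ≫ α)
    (e₂ : α ≫ r = w' ≫ (biprod.inr : X' ⟶ Y ⊞ X')⟦(1 : ℤ)⟧')
    (e₃ : q ≫ β = biprod.desc (-w) 0)
    (e₄ : r ≫ (biprod.desc (biprod.inl + g ≫ biprod.inr) (u' ≫ biprod.inr) :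
      Y ⊞ X' ⟶ Y ⊞ Y')⟦(1 : ℤ)⟧' = β ≫ (-u⟦(1 : ℤ)⟧') ≫ (biprod.inl : Y ⟶ Y ⊞ Y')⟦(1 : ℤ)⟧')
    (o₅ : Triangle.mk α β (0 : X⟦(1 : ℤ)⟧ ⟶ Z'⟦(1 : ℤ)⟧) ∈ distTriang C) :
    ∃ h : Z ⟶ Z', v ≫ h = g ≫ v' ∧ w ≫ f⟦(1 : ℤ)⟧' = h ≫ w' ∧
      cone u v w u' v' w' f g h ∈ distTriang C := by
  obtain ⟨e, he₁, he₂⟩ := exists_iso_binaryBiproduct_of_distTriang _ o₅ rfl
  change E ≅ Z' ⊞ X⟦(1 : ℤ)⟧ at e
  change α ≫ e.hom = biprod.inl at he₁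
  change β = e.hom ≫ biprod.snd at he₂
  obtain ⟨ρ, hρ⟩ : ∃ ρ : E ⟶ Z', ρ = e.hom ≫ biprod.fst := ⟨_, rfl⟩
  obtain ⟨σ, hσ⟩ : ∃ σ : X⟦(1 : ℤ)⟧ ⟶ E, σ = biprod.inr ≫ e.inv := ⟨_, rfl⟩
  have r₁ : α ≫ ρ = 𝟙 _ := by rw [hρ, ← assoc, he₁, biprod.inl_fst]
  have r₂ : α ≫ β = 0 := by rw [he₂, ← assoc, he₁, biprod.inl_snd]
  have r₃ : σ ≫ β = 𝟙 _ := by rw [he₂, hσ]; simp
  have r₄ : σ ≫ ρ = 0 := by rw [hρ, hσ]; simp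
  have r₅ : ρ ≫ α + β ≫ σ = 𝟙 _ := by
    have h1 : α = biprod.inl ≫ e.inv := by rw [← he₁]; simp
    have h2 : ρ ≫ α + β ≫ σ = e.hom ≫ (biprod.fst ≫ biprod.inl + biprod.snd ≫ biprod.inr) ≫
        e.inv := by
      rw [h1, hρ, hσ, he₂]
      simp only [assoc, comp_add, add_comp]
    rw [h2, biprod.total, id_comp, Iso.hom_inv_id]
  have f₁ : r ≫ (biprod.fst : Y ⊞ X' ⟶ Y)⟦(1 : ℤ)⟧' = β ≫ (-u⟦(1 : ℤ)⟧') := by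
    have h1 := congrArg (fun x => x ≫ (biprod.fst : Y ⊞ Y' ⟶ Y)⟦(1 : ℤ)⟧') e₄
    simp only [assoc] at h1
    rw [← Functor.map_comp, ← Functor.map_comp, biprod.inl_fst, CategoryTheory.Functor.map_id,
      comp_id] at h1
    rw [← h1]
    congr 2
    ext <;> simp
  have f₂ : r ≫ (biprod.fst : Y ⊞ X' ⟶ Y)⟦(1 : ℤ)⟧' ≫ g⟦(1 : ℤ)⟧' +
      r ≫ (biprod.snd : Y ⊞ X' ⟶ X')⟦(1 : ℤ)⟧' ≫ u'⟦(1 : ℤ)⟧' = 0 := by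
    have h1 := congrArg (fun x => x ≫ (biprod.snd : Y ⊞ Y' ⟶ Y')⟦(1 : ℤ)⟧') e₄
    simp only [assoc] at h1
    rw [← Functor.map_comp, ← Functor.map_comp, biprod.inl_snd, Functor.map_zero,
      comp_zero, comp_zero] at h1
    rw [← h1, ← comp_add, ← Functor.map_comp, ← Functor.map_comp, ← Functor.map_add]
    congr 2
    ext <;> simp
  obtain ⟨z, hz⟩ : ∃ z : X⟦(1 : ℤ)⟧ ⟶ Z',
      σ ≫ r ≫ (biprod.snd : Y ⊞ X' ⟶ X')⟦(1 : ℤ)⟧' - f⟦(1 : ℤ)⟧' = z ≫ w' := by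
    apply Triangle.coyoneda_exact₁ _ hT'
    show (σ ≫ r ≫ (biprod.snd : Y ⊞ X' ⟶ X')⟦(1 : ℤ)⟧' - f⟦(1 : ℤ)⟧') ≫ u'⟦(1 : ℤ)⟧' = 0
    have h1 := congrArg (fun x => σ ≫ x) f₂
    simp only [comp_add, comp_zero] at h1
    rw [reassoc_of% f₁, ← assoc σ β, r₃, id_comp, neg_comp, ← Functor.map_comp, comm,
      Functor.map_comp] at h1
    rw [sub_comp, assoc, assoc, sub_eq_add_neg, add_comm]
    exact h1
  obtain ⟨σ', hσ'⟩ : ∃ σ' : X⟦(1 : ℤ)⟧ ⟶ E, σ' = σ - z ≫ α := ⟨_, rfl⟩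
  obtain ⟨ρ', hρ'⟩ : ∃ ρ' : E ⟶ Z', ρ' = ρ + β ≫ z := ⟨_, rfl⟩
  have s₁ : α ≫ ρ' = 𝟙 _ := by rw [hρ', comp_add, r₁, ← assoc, r₂, zero_comp, add_zero]
  have s₃ : σ' ≫ β = 𝟙 _ := by rw [hσ', sub_comp, r₃, assoc, r₂, comp_zero, sub_zero]
  have s₄ : σ' ≫ ρ' = 0 := by
    rw [hσ', sub_comp, assoc, s₁, comp_id, hρ', comp_add, r₄, ← assoc, r₃, id_comp, zero_add,
      sub_self]
  have s₅ : ρ' ≫ α + β ≫ σ' = 𝟙 _ := by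
    rw [hρ', hσ', add_comp, comp_sub, ← r₅, assoc]
    abel
  have t₁ : σ' ≫ r ≫ (biprod.fst : Y ⊞ X' ⟶ Y)⟦(1 : ℤ)⟧' = -u⟦(1 : ℤ)⟧' := by
    rw [f₁, ← assoc, s₃, id_comp]
  have t₂ : σ' ≫ r ≫ (biprod.snd : Y ⊞ X' ⟶ X')⟦(1 : ℤ)⟧' = f⟦(1 : ℤ)⟧' := by
    rw [hσ', sub_comp, assoc, reassoc_of% e₂, ← Functor.map_comp, biprod.inr_snd,
      CategoryTheory.Functor.map_id, comp_id, ← hz, sub_sub_cancel]
  have t₃ : σ' ≫ r = -(u⟦(1 : ℤ)⟧' ≫ (biprod.inl : Y ⟶ Y ⊞ X')⟦(1 : ℤ)⟧') +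
      f⟦(1 : ℤ)⟧' ≫ (biprod.inr : X' ⟶ Y ⊞ X')⟦(1 : ℤ)⟧' := by
    have h1 : σ' ≫ r = σ' ≫ r ≫ (biprod.fst ≫ biprod.inl + biprod.snd ≫ biprod.inr :
        Y ⊞ X' ⟶ Y ⊞ X')⟦(1 : ℤ)⟧' := by
      rw [biprod.total, CategoryTheory.Functor.map_id, comp_id]
    rw [h1, Functor.map_add, Functor.map_comp, Functor.map_comp, comp_add, comp_add,
      reassoc_of% t₁, reassoc_of% t₂, neg_comp]
  let κ : E ≅ (X⟦(1 : ℤ)⟧) ⊞ Z' :=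
    { hom := biprod.lift β ρ'
      inv := biprod.desc σ' α
      hom_inv_id := by
        rw [biprod.lift_desc, add_comm, s₅]
      inv_hom_id := by
        ext <;> simp [r₂, s₁, s₃, s₄] }
  obtain ⟨h, hh⟩ : ∃ h : Z ⟶ Z', h = biprod.inl ≫ q ≫ ρ' := ⟨_, rfl⟩
  have k₁ : q ≫ κ.hom = biprod.desc (-(w ≫ biprod.inl) + h ≫ biprod.inr) (v' ≫ biprod.inr) := by
    show q ≫ biprod.lift β ρ' = _
    ext
    · simp [e₃]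
    · simp [hh]
    · simp [e₃]
    · simp [reassoc_of% e₁, s₁]
  have k₂ : r = κ.hom ≫
      biprod.desc (-(u⟦(1 : ℤ)⟧' ≫ biprod.inl⟦(1 : ℤ)⟧') + f⟦(1 : ℤ)⟧' ≫ biprod.inr⟦(1 : ℤ)⟧')
      (w' ≫ biprod.inr⟦(1 : ℤ)⟧') := by
    rw [← Iso.inv_comp_eq, ← t₃, ← e₂]
    show biprod.desc σ' α ≫ r = _
    ext <;> simp
  have hc : cone u v w u' v' w' f g h ∈ distTriang C := by
    refine isomorphic_distinguished _ hE _ (Iso.symm ?_)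
    refine Triangle.isoMk _ _ (Iso.refl _) (Iso.refl _) κ ?_ ?_ ?_
    · exact (comp_id (biprod.desc (-(v ≫ biprod.inl) + g ≫ biprod.inr) (u' ≫ biprod.inr))).trans
        (id_comp _).symm
    · exact k₁.trans (id_comp _).symm
    · show r ≫ (𝟙 _)⟦(1 : ℤ)⟧' = κ.hom ≫ _
      rw [CategoryTheory.Functor.map_id, comp_id]
      exact k₂
  refine ⟨h, ?_, ?_, hc⟩
  · have h1 : (biprod.desc (-(v ≫ biprod.inl) + g ≫ biprod.inr) (u' ≫ biprod.inr) :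
        Y ⊞ X' ⟶ Z ⊞ Y') ≫
        biprod.desc (-(w ≫ (biprod.inl : _ ⟶ (X⟦(1 : ℤ)⟧) ⊞ Z')) + h ≫ biprod.inr)
          (v' ≫ biprod.inr) = 0 := comp_distTriang_mor_zero₁₂ _ hc
    have h2 := congrArg (fun x => biprod.inl ≫ x ≫ biprod.snd) h1
    simp at h2
    rw [neg_add_eq_zero] at h2
    exact h2
  · have h1 : biprod.desc (-(w ≫ (biprod.inl : _ ⟶ (X⟦(1 : ℤ)⟧) ⊞ Z')) + h ≫ biprod.inr)
          (v' ≫ biprod.inr) ≫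
        biprod.desc (-(u⟦(1 : ℤ)⟧' ≫ (biprod.inl : Y ⟶ Y ⊞ X')⟦(1 : ℤ)⟧') +
          f⟦(1 : ℤ)⟧' ≫ biprod.inr⟦(1 : ℤ)⟧') (w' ≫ biprod.inr⟦(1 : ℤ)⟧') = 0 :=
      comp_distTriang_mor_zero₂₃ _ hc
    have h2 := congrArg (fun x => biprod.inl ≫ x ≫ (biprod.snd : Y ⊞ X' ⟶ X')⟦(1 : ℤ)⟧') h1
    simp [← Functor.map_comp] at h2
    rw [neg_add_eq_zero] at h2
    exact h2

/-- Neeman's theorem: a commutative square has a good fill-in. -/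
theorem exists_good [IsTriangulated C] {X Y Z X' Y' Z' : C}
    {u : X ⟶ Y} {v : Y ⟶ Z} {w : Z ⟶ X⟦(1 : ℤ)⟧}
    {u' : X' ⟶ Y'} {v' : Y' ⟶ Z'} {w' : Z' ⟶ X'⟦(1 : ℤ)⟧}
    (hT : Triangle.mk u v w ∈ distTriang C) (hT' : Triangle.mk u' v' w' ∈ distTriang C)
    (f : X ⟶ X') (g : Y ⟶ Y') (comm : u ≫ g = f ≫ u') :
    ∃ h : Z ⟶ Z', v ≫ h = g ≫ v' ∧ w ≫ f⟦(1 : ℤ)⟧' = h ≫ w' ∧
      cone u v w u' v' w' f g h ∈ distTriang C := by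
  -- the first factor
  let shear : Y ⊞ Y' ≅ Y ⊞ Y' :=
    { hom := biprod.desc (biprod.inl - g ≫ biprod.inr) biprod.inr
      inv := biprod.desc (biprod.inl + g ≫ biprod.inr) biprod.inr
      hom_inv_id := by
        ext <;> simp
      inv_hom_id := by
        ext <;> simp }
  let N : Y ⊞ X' ⟶ Y ⊞ Y' := biprod.desc (biprod.inl + g ≫ biprod.inr) (u' ≫ biprod.inr)
  have hN := sum_contractible' hT' (Iso.refl (Y ⊞ X')) shear N (by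
    show biprod.desc (biprod.inl + g ≫ biprod.inr) (u' ≫ biprod.inr) ≫
      biprod.desc (biprod.inl - g ≫ biprod.inr) biprod.inr = 𝟙 _ ≫ biprod.map (𝟙 Y) u'
    ext <;> simp)
  -- the second factor
  let P : Y ⊞ Y' ⟶ Z ⊞ Y' := biprod.desc (-(v ≫ biprod.inl)) biprod.inr
  have hP := sum_contractible' (neg_distinguished (rot_of_distTriang _ hT))
    (biprod.braiding Y Y') (biprod.braiding Z Y') P (by
      show biprod.desc (-(v ≫ biprod.inl)) biprod.inr ≫ biprod.lift biprod.snd biprod.fst =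
        biprod.lift biprod.snd biprod.fst ≫ biprod.map (𝟙 Y') (-v)
      ext <;> simp)
  -- the octahedron
  have hNP : N ≫ P = biprod.desc (-(v ≫ biprod.inl) + g ≫ biprod.inr) (u' ≫ biprod.inr) := by
    show biprod.desc (biprod.inl + g ≫ biprod.inr) (u' ≫ biprod.inr) ≫
      biprod.desc (-(v ≫ biprod.inl)) biprod.inr = _
    ext <;> simp
  obtain ⟨E, q, r, hE⟩ := distinguished_cocone_triangle
    (biprod.desc (-(v ≫ biprod.inl) + g ≫ biprod.inr) (u' ≫ biprod.inr) : Y ⊞ X' ⟶ Z ⊞ Y')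
  change E ⟶ (Y ⊞ X')⟦(1 : ℤ)⟧ at r
  change Z ⊞ Y' ⟶ E at q
  let O := someOctahedron hNP hN hP hE
  obtain ⟨α, hα⟩ : ∃ α : Z' ⟶ E, α = O.m₁ := ⟨_, rfl⟩
  obtain ⟨β, hβ⟩ : ∃ β : E ⟶ X⟦(1 : ℤ)⟧, β = O.m₃ := ⟨_, rfl⟩
  have o₁ : (shear.hom ≫ biprod.snd ≫ v') ≫ α = P ≫ q := by rw [hα]; exact O.comm₁
  have o₂ : α ≫ r = w' ≫ (biprod.inr : X' ⟶ Y ⊞ X')⟦(1 : ℤ)⟧' ≫ (𝟙 (Y ⊞ X'))⟦(1 : ℤ)⟧' := by
    rw [hα]; exact O.comm₂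
  have o₃ : q ≫ β = (biprod.braiding Z Y').hom ≫ biprod.snd ≫ (-w) := by rw [hβ]; exact O.comm₃
  have o₄ : r ≫ N⟦(1 : ℤ)⟧' = β ≫ ((-u⟦(1 : ℤ)⟧') ≫ (biprod.inr : Y ⟶ Y' ⊞ Y)⟦(1 : ℤ)⟧' ≫
      (biprod.braiding Y Y').inv⟦(1 : ℤ)⟧') := by rw [hβ]; exact O.comm₄
  have e₁ : (biprod.inr : Y' ⟶ Z ⊞ Y') ≫ q = v' ≫ α := by
    have := congrArg (fun x => biprod.inr ≫ x) o₁
    simpa [P, shear] using this.symm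
  have e₂ : α ≫ r = w' ≫ (biprod.inr : X' ⟶ Y ⊞ X')⟦(1 : ℤ)⟧' := by
    rw [o₂, CategoryTheory.Functor.map_id, comp_id]
  have e₃ : q ≫ β = biprod.desc (-w) 0 := by
    rw [o₃]
    ext <;> simp
  have e₄ : r ≫ N⟦(1 : ℤ)⟧' = β ≫ (-u⟦(1 : ℤ)⟧') ≫ (biprod.inl : Y ⟶ Y ⊞ Y')⟦(1 : ℤ)⟧' := by
    rw [o₄, ← Functor.map_comp]
    congr 3
    ext <;> simp
  have huv : u' ≫ v' = 0 := comp_distTriang_mor_zero₁₂ _ hT'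
  have e₅ : ((-u⟦(1 : ℤ)⟧') ≫ (biprod.inr : Y ⟶ Y' ⊞ Y)⟦(1 : ℤ)⟧' ≫
      (biprod.braiding Y Y').inv⟦(1 : ℤ)⟧') ≫ (shear.hom ≫ biprod.snd ≫ v')⟦(1 : ℤ)⟧' = 0 := by
    rw [neg_comp, neg_comp, ← Functor.map_comp, ← Functor.map_comp, ← Functor.map_comp, neg_eq_zero]
    have : (u ≫ (biprod.inr : Y ⟶ Y' ⊞ Y) ≫ (biprod.braiding Y Y').inv) ≫ shear.hom ≫
        biprod.snd ≫ v' = 0 := by
      have h1 : (biprod.inr : Y ⟶ Y' ⊞ Y) ≫ (biprod.braiding Y Y').inv = biprod.inl := by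
        ext <;> simp
      rw [h1]
      simp [shear]
      rw [← assoc, comm, assoc, huv, comp_zero]
    rw [this, Functor.map_zero]
  have o₅ : Triangle.mk α β (0 : X⟦(1 : ℤ)⟧ ⟶ Z'⟦(1 : ℤ)⟧) ∈ distTriang C := by
    rw [hα, hβ]
    have h1 := O.mem
    have h2 : (Triangle.mk O.m₁ O.m₃ (0 : X⟦(1 : ℤ)⟧ ⟶ Z'⟦(1 : ℤ)⟧)) = Triangle.mk O.m₁ O.m₃
      (((-u⟦(1 : ℤ)⟧') ≫ (biprod.inr : Y ⟶ Y' ⊞ Y)⟦(1 : ℤ)⟧' ≫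
      (biprod.braiding Y Y').inv⟦(1 : ℤ)⟧') ≫ (shear.hom ≫ biprod.snd ≫ v')⟦(1 : ℤ)⟧') :=
      congrArg (fun x : X⟦(1 : ℤ)⟧ ⟶ Z'⟦(1 : ℤ)⟧ => Triangle.mk O.m₁ O.m₃ x) e₅.symm
    exact h2 ▸ h1
  exact exists_good_aux hT' f g comm hE e₁ e₂ e₃ e₄ o₅

end Q5.GoodTri
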