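import Pool.Agent.Q5.GoodTri.One

set_option autoImplicit false

/-!
# Maps of triangles that are not good or not Verdier good
-/

open CategoryTheory Category Limits Pretriangulated Triangulated Preadditive

namespace Q5.GoodTri

variable {C : Type*} [Category C] [HasZeroObject C] [HasShift C ℤ] [Preadditive C]
  [∀ n : ℤ, (shiftFunctor C n).Additive] [Pretriangulated C]

/-- Verdier good maps with at most the third component nonzero. -/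
theorem verdierGood_zero {X Y Z X' Y' Z' : C} {u : X ⟶ Y} {v : Y ⟶ Z} {w : Z ⟶ X⟦(1 : ℤ)⟧}
    {u' : X' ⟶ Y'} {v' : Y' ⟶ Z'} {w' : Z' ⟶ X'⟦(1 : ℤ)⟧}
    (hT : Triangle.mk u v w ∈ distTriang C) (hT' : Triangle.mk u' v' w' ∈ distTriang C)
    {h : Z ⟶ Z'} (hφ : VerdierGood hT hT' 0 0 h) :
    ∃ θ : X⟦(1 : ℤ)⟧ ⟶ Y', h = w ≫ θ ≫ v' := by
  obtain ⟨A, Y'', X'', vt, wt, g', g'', f', f'', hA, hg, hf, comm, O₁, O₂, h⟩ := hφ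
  obtain ⟨κ, hκ⟩ : ∃ κ : X⟦(1 : ℤ)⟧ ⟶ A, O₁.m₁ = w ≫ κ :=
    Triangle.yoneda_exact₃ _ hT O₁.m₁ (O₁.comm₁.trans zero_comp)
  obtain ⟨l, hl⟩ : ∃ l : A ⟶ Y', O₂.m₃ = l ≫ v' :=
    Triangle.coyoneda_exact₃ _ hT' O₂.m₃ (O₂.comm₄.symm.trans (by rw [Functor.map_zero, comp_zero]; rfl))
  refine ⟨κ ≫ l, ?_⟩
  rw [h, hκ, hl, assoc, assoc]

variable {X Y Z Z' : C} {u : X ⟶ Y} {g : Y ⟶ X} {v : Y ⟶ Z} {w : Z ⟶ X⟦(1 : ℤ)⟧}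
  {v' : X ⟶ Z'} {w' : Z' ⟶ Y⟦(1 : ℤ)⟧}

/-- The map `(0, 0, h)` is not Verdier good. -/
theorem not_verdierGood_zero (hT : Triangle.mk u v w ∈ distTriang C)
    (hT' : Triangle.mk g v' w' ∈ distTriang C) (hom : ∀ θ : X⟦(1 : ℤ)⟧ ⟶ X, θ = 0)
    {h : Z ⟶ Z'} (h3 : h ≠ 0) : ¬ VerdierGood hT hT' 0 0 h := by
  intro hφ
  obtain ⟨θ, hθ⟩ := verdierGood_zero hT hT' hφ
  apply h3
  rw [hθ, hom θ, zero_comp, comp_zero]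

/-- The rotation of `(u, g, w ≫ a)` is not Verdier good. -/
theorem not_verdierGood_rotate (hT' : Triangle.mk g v' w' ∈ distTriang C) (hom : ∀ θ : X⟦(1 : ℤ)⟧ ⟶ X, θ = 0)
    (a : X⟦(1 : ℤ)⟧ ⟶ Z') (h3 : w ≫ a ≠ 0)
    (hR : Triangle.mk v w (-u⟦(1 : ℤ)⟧') ∈ distTriang C)
    (hR' : Triangle.mk v' w' (-g⟦(1 : ℤ)⟧') ∈ distTriang C) :
    ¬ VerdierGood hR hR' g (w ≫ a) (u⟦(1 : ℤ)⟧') := by
  rintro ⟨A, Y'', X'', vt, wt, g', g'', f', f'', hA, hg, hf, comm, O₁, O₂, h⟩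
  have c₁ : w ≫ O₁.m₁ = (w ≫ a) ≫ vt := O₁.comm₁
  have c₂ : O₁.m₁ ≫ wt = -u⟦(1 : ℤ)⟧' := O₁.comm₂
  have c₃ : vt ≫ O₂.m₃ = w' := O₂.comm₃
  have c₄ : wt ≫ g⟦(1 : ℤ)⟧' = O₂.m₃ ≫ (-g⟦(1 : ℤ)⟧') := O₂.comm₄
  have c₆ : vt ≫ wt = 0 := comp_distTriang_mor_zero₂₃ _ hA
  rw [comp_neg] at c₄
  obtain ⟨z, hz⟩ : ∃ z : A ⟶ Z', O₂.m₃ + wt = z ≫ w' := by
    apply Triangle.coyoneda_exact₁ _ hT'
    show (O₂.m₃ + wt) ≫ g⟦(1 : ℤ)⟧' = 0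
    rw [add_comp, c₄, add_neg_cancel]
  obtain ⟨x, hx⟩ : ∃ x : Z' ⟶ X, vt ≫ z - 𝟙 Z' = x ≫ v' := by
    apply Triangle.coyoneda_exact₃ _ hT'
    show (vt ≫ z - 𝟙 Z') ≫ w' = 0
    rw [sub_comp, assoc, ← hz, comp_add, c₃, c₆, id_comp, add_zero, sub_self]
  obtain ⟨θ, hθ⟩ : ∃ θ : X⟦(1 : ℤ)⟧ ⟶ X, O₁.m₁ ≫ z = θ ≫ v' := by
    apply Triangle.coyoneda_exact₃ _ hT'
    show (O₁.m₁ ≫ z) ≫ w' = 0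
    rw [assoc, ← hz, comp_add, ← h, c₂, add_neg_cancel]
  rw [hom θ, zero_comp] at hθ
  apply h3
  have e1 : (w ≫ a) ≫ vt ≫ z = 0 := by
    rw [← assoc, ← c₁, assoc, hθ, comp_zero]
  have e2 : vt ≫ z = 𝟙 Z' + x ≫ v' := by
    rw [← hx]
    abel
  have e3 : (w ≫ a) ≫ x = 0 := by
    rw [assoc, hom (a ≫ x), comp_zero]
  rw [e2, comp_add, ← assoc, e3, zero_comp, add_zero, comp_id] at e1
  exact e1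

/-- The map `(u, g, h)` is not good. -/
theorem not_good (hT : Triangle.mk u v w ∈ distTriang C)
    (hT' : Triangle.mk g v' w' ∈ distTriang C) (hom : ∀ θ : X⟦(1 : ℤ)⟧ ⟶ X, θ = 0)
    {h : Z ⟶ Z'} (h3 : h ≠ 0) : cone u v w g v' w' u g h ∉ distTriang C := by
  intro hφ
  have hR : Triangle.mk v w (-u⟦(1 : ℤ)⟧') ∈ distTriang C := rot_of_distTriang _ hT
  obtain ⟨σ, hσ₁, hσ₂⟩ := complete_distinguished_triangle_morphism _ _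
    hR hφ (-biprod.inl + biprod.inr : Y ⟶ Y ⊞ Y) (biprod.inl : Z ⟶ Z ⊞ X) (by
      show v ≫ biprod.inl = (-biprod.inl + biprod.inr) ≫
        biprod.desc (-(v ≫ biprod.inl) + g ≫ biprod.inr) (g ≫ biprod.inr)
      rw [add_comp, neg_comp, biprod.inl_desc, biprod.inr_desc]
      abel)
  change X⟦(1 : ℤ)⟧ ⟶ (X⟦(1 : ℤ)⟧) ⊞ Z' at σ
  change w ≫ σ = biprod.inl ≫ biprod.desc (-(w ≫ biprod.inl) + h ≫ biprod.inr)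
    (v' ≫ biprod.inr) at hσ₁
  change (-u⟦(1 : ℤ)⟧') ≫ (-biprod.inl + biprod.inr : Y ⟶ Y ⊞ Y)⟦(1 : ℤ)⟧' = σ ≫
      biprod.desc (-(u⟦(1 : ℤ)⟧' ≫ biprod.inl⟦(1 : ℤ)⟧') + u⟦(1 : ℤ)⟧' ≫ biprod.inr⟦(1 : ℤ)⟧')
      (w' ≫ biprod.inr⟦(1 : ℤ)⟧') at hσ₂
  obtain ⟨σ₁, σ₂, rfl⟩ : ∃ (σ₁ : X⟦(1 : ℤ)⟧ ⟶ X⟦(1 : ℤ)⟧) (σ₂ : X⟦(1 : ℤ)⟧ ⟶ Z'),
      σ = σ₁ ≫ biprod.inl + σ₂ ≫ biprod.inr := by
    refine ⟨σ ≫ biprod.fst, σ ≫ biprod.snd, ?_⟩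
    rw [assoc, assoc, ← comp_add, biprod.total, comp_id]
  have e3 : w ≫ σ₂ = h := by
    have := congrArg (fun x => x ≫ biprod.snd) hσ₁
    simpa using this
  have f1 := congrArg (fun x => x ≫ (biprod.fst : Y ⊞ Y ⟶ Y)⟦(1 : ℤ)⟧') hσ₂
  have f2 := congrArg (fun x => x ≫ (biprod.snd : Y ⊞ Y ⟶ Y)⟦(1 : ℤ)⟧') hσ₂
  simp [← Functor.map_comp] at f1 f2
  have f3 : σ₂ ≫ w' = 0 := by
    have f4 : σ₂ ≫ w' = -u⟦(1 : ℤ)⟧' - σ₁ ≫ u⟦(1 : ℤ)⟧' := by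
      rw [f2]
      abel
    have f5 : σ₁ ≫ u⟦(1 : ℤ)⟧' = -u⟦(1 : ℤ)⟧' := (neg_eq_iff_eq_neg.mp f1.symm)
    rw [f4, f5, sub_self]
  obtain ⟨θ, hθ⟩ : ∃ θ : X⟦(1 : ℤ)⟧ ⟶ X, σ₂ = θ ≫ v' := Triangle.coyoneda_exact₃ _ hT' σ₂ f3
  apply h3
  rw [← e3, hθ, hom θ, zero_comp, comp_zero]

/-- The maps `(u, g, h)` and `(0, 0, h)` are chain homotopic. -/
theorem homotopic_zero (u : X ⟶ Y) (v : Y ⟶ Z) (w : Z ⟶ X⟦(1 : ℤ)⟧) (g : Y ⟶ X) (v' : X ⟶ Z')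
    (w' : Z' ⟶ Y⟦(1 : ℤ)⟧) (h : Z ⟶ Z') : Homotopic u v w g v' w' u 0 g 0 h h := by
  refine ⟨𝟙 _, 0, 0, ?_, ?_, ?_⟩
  · rw [sub_zero, comp_id, zero_comp, add_zero]
  · rw [sub_zero, id_comp, comp_zero, add_zero]
  · rw [sub_self, comp_zero, zero_comp, add_zero]

end Q5.GoodTri
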