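import Pool.Agent.Q5.GoodTri.Defs

set_option autoImplicit false

/-!
# A Verdier good map of triangles

The situation: `u : X ⟶ Y`, `g : Y ⟶ X` with `u g u g = 0`, no `t : Y ⟶ Y` with `u t = u g u` and
`t g = 0`, and no nonzero maps `X⟦1⟧ ⟶ X`.
-/

open CategoryTheory Category Limits Pretriangulated Triangulated Preadditive

namespace Q5.GoodTri

variable {C : Type*} [Category C] [HasZeroObject C] [HasShift C ℤ] [Preadditive C]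
  [∀ n : ℤ, (shiftFunctor C n).Additive] [Pretriangulated C]

/-- The hypotheses on `u` and `g`. -/
structure Hyp {X Y : C} (u : X ⟶ Y) (g : Y ⟶ X) : Prop where
  nil : u ≫ g ≫ u ≫ g = 0
  lift : ∀ t : Y ⟶ Y, u ≫ t = u ≫ g ≫ u → t ≫ g ≠ 0
  hom : ∀ θ : X⟦(1 : ℤ)⟧ ⟶ X, θ = 0

/-- The twist of an octahedron by an automorphism of its central object. -/
def twist {X₁ X₂ X₃ Z₁₂ Z₂₃ Z₁₃ : C}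
    {u₁₂ : X₁ ⟶ X₂} {u₂₃ : X₂ ⟶ X₃} {u₁₃ : X₁ ⟶ X₃} {comm : u₁₂ ≫ u₂₃ = u₁₃}
    {v₁₂ : X₂ ⟶ Z₁₂} {w₁₂ : Z₁₂ ⟶ X₁⟦(1 : ℤ)⟧} {h₁₂ : Triangle.mk u₁₂ v₁₂ w₁₂ ∈ distTriang C}
    {v₂₃ : X₃ ⟶ Z₂₃} {w₂₃ : Z₂₃ ⟶ X₂⟦(1 : ℤ)⟧} {h₂₃ : Triangle.mk u₂₃ v₂₃ w₂₃ ∈ distTriang C}
    {v₁₃ : X₃ ⟶ Z₁₃} {w₁₃ : Z₁₃ ⟶ X₁⟦(1 : ℤ)⟧} {h₁₃ : Triangle.mk u₁₃ v₁₃ w₁₃ ∈ distTriang C}
    (O : Octahedron comm h₁₂ h₂₃ h₁₃) (ψ : Z₁₃ ≅ Z₁₃) (h₁ : v₁₃ ≫ ψ.hom = v₁₃)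
    (h₂ : O.m₁ ≫ ψ.inv ≫ w₁₃ = w₁₂) (h₃ : ψ.hom ≫ w₁₃ ≫ u₁₂⟦(1 : ℤ)⟧' = w₁₃ ≫ u₁₂⟦(1 : ℤ)⟧') :
    Octahedron comm h₁₂ h₂₃ h₁₃ where
  m₁ := O.m₁ ≫ ψ.inv
  m₃ := ψ.hom ≫ O.m₃
  comm₁ := by
    have h : v₁₃ ≫ ψ.inv = v₁₃ := by rw [Iso.comp_inv_eq, h₁]
    rw [← assoc, O.comm₁, assoc, h]
  comm₂ := by rw [assoc, h₂]
  comm₃ := by rw [← assoc, h₁, O.comm₃]
  comm₄ := by rw [assoc, ← O.comm₄, h₃]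
  mem := by
    refine isomorphic_distinguished _ O.mem _ ?_
    refine Triangle.isoMk _ _ (Iso.refl Z₁₂) ψ (Iso.refl Z₂₃) ?_ ?_ ?_
    · show (O.m₁ ≫ ψ.inv) ≫ ψ.hom = 𝟙 _ ≫ O.m₁
      simp
    · show (ψ.hom ≫ O.m₃) ≫ 𝟙 _ = ψ.hom ≫ O.m₃
      simp
    · show (w₂₃ ≫ v₁₂⟦(1 : ℤ)⟧') ≫ (𝟙 _)⟦(1 : ℤ)⟧' = 𝟙 _ ≫ (w₂₃ ≫ v₁₂⟦(1 : ℤ)⟧')
      simp

/-- The main construction. -/
theorem exists_map [IsTriangulated C] {X Y : C} {u : X ⟶ Y} {g : Y ⟶ X} (H : Hyp u g)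
    {Z Z' : C} {v : Y ⟶ Z} {w : Z ⟶ X⟦(1 : ℤ)⟧} (hT : Triangle.mk u v w ∈ distTriang C)
    {v' : X ⟶ Z'} {w' : Z' ⟶ Y⟦(1 : ℤ)⟧} (hT' : Triangle.mk g v' w' ∈ distTriang C) :
    ∃ a : X⟦(1 : ℤ)⟧ ⟶ Z', v ≫ w ≫ a = g ≫ v' ∧ w ≫ u⟦(1 : ℤ)⟧' = (w ≫ a) ≫ w' ∧ w ≫ a ≫ w' = 0 ∧
      w ≫ a ≠ 0 ∧ VerdierGood hT hT' u g (w ≫ a) := by
  obtain ⟨A, vt, wt, hA⟩ := distinguished_cocone_triangle (u ≫ g)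
  let O := someOctahedron (rfl : u ≫ g = u ≫ g) hT hT' hA
  -- the lift `κ` of the shift of `u ≫ g`
  have hw : wt ≫ (u ≫ g)⟦(1 : ℤ)⟧' = 0 := comp_distTriang_mor_zero₃₁ _ hA
  have hv : vt ≫ wt = 0 := comp_distTriang_mor_zero₂₃ _ hA
  have hvw : v ≫ w = 0 := comp_distTriang_mor_zero₂₃ _ hT
  have hgv : g ≫ v' = 0 := comp_distTriang_mor_zero₁₂ _ hT'
  have hwu : w ≫ u⟦(1 : ℤ)⟧' = 0 := comp_distTriang_mor_zero₃₁ _ hT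
  have hwg : w' ≫ g⟦(1 : ℤ)⟧' = 0 := comp_distTriang_mor_zero₃₁ _ hT'
  have hm : O.m₁ ≫ O.m₃ = 0 := comp_distTriang_mor_zero₁₂ _ O.mem
  obtain ⟨κ, hκ⟩ : ∃ κ : X⟦(1 : ℤ)⟧ ⟶ A, (u ≫ g)⟦(1 : ℤ)⟧' = κ ≫ wt := by
    apply Triangle.coyoneda_exact₁ _ hA
    show (u ≫ g)⟦(1 : ℤ)⟧' ≫ (u ≫ g)⟦(1 : ℤ)⟧' = 0
    rw [← Functor.map_comp, assoc, H.nil, Functor.map_zero]
  have hρ : wt ≫ κ ≫ wt = 0 := by rw [← hκ, hw]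
  have ha : κ ≫ O.m₃ ≫ w' = (u ≫ g ≫ u)⟦(1 : ℤ)⟧' := by
    rw [← O.comm₄, ← assoc, ← hκ, ← Functor.map_comp, assoc]
  have hwa : w ≫ (κ ≫ O.m₃) ≫ w' = 0 := by
    rw [assoc, ha, Functor.map_comp, ← assoc, hwu, zero_comp]
  let ψ : A ≅ A :=
    { hom := 𝟙 A + wt ≫ κ
      inv := 𝟙 A - wt ≫ κ
      hom_inv_id := by
        have : (wt ≫ κ) ≫ wt ≫ κ = 0 := by
          rw [assoc, ← assoc κ, ← assoc wt (κ ≫ wt), hρ, zero_comp]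
        rw [add_comp, comp_sub, comp_sub, this, id_comp, comp_id, id_comp]
        abel
      inv_hom_id := by
        have : (wt ≫ κ) ≫ wt ≫ κ = 0 := by
          rw [assoc, ← assoc κ, ← assoc wt (κ ≫ wt), hρ, zero_comp]
        rw [sub_comp, comp_add, comp_add, this, id_comp, comp_id, id_comp]
        abel }
  refine ⟨κ ≫ O.m₃, ?_, ?_, ?_, ?_, ?_⟩
  · rw [hgv, ← assoc, hvw, zero_comp]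
  · rw [hwu, assoc, hwa]
  · exact hwa
  · -- the map is not zero
    intro h0
    obtain ⟨b, hb⟩ : ∃ b : Y⟦(1 : ℤ)⟧ ⟶ Z', κ ≫ O.m₃ = (-u⟦(1 : ℤ)⟧') ≫ b := by
      have h1 := rot_of_distTriang _ (rot_of_distTriang _ hT)
      exact Triangle.yoneda_exact₂ _ h1 (κ ≫ O.m₃) h0
    obtain ⟨t, ht⟩ := (shiftFunctor C (1 : ℤ)).map_surjective ((-b) ≫ w')
    have h1 : u ≫ t = u ≫ g ≫ u := by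
      apply (shiftFunctor C (1 : ℤ)).map_injective
      rw [← ha, Functor.map_comp, ht, ← assoc κ, hb]
      simp
    apply H.lift t h1
    apply (shiftFunctor C (1 : ℤ)).map_injective
    rw [Functor.map_comp, ht, assoc, hwg, comp_zero, Functor.map_zero]
  · refine ⟨A, Z', Z, vt, wt, v', w', v, w, hA, hT', hT, rfl, O, twist O ψ ?_ ?_ ?_, ?_⟩
    · show vt ≫ (𝟙 A + wt ≫ κ) = vt
      rw [comp_add, comp_id, ← assoc, hv, zero_comp, add_zero]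
    · show O.m₁ ≫ (𝟙 A - wt ≫ κ) ≫ wt = w
      rw [sub_comp, id_comp, comp_sub, O.comm₂, assoc, ← hκ, ← assoc, O.comm₂, Functor.map_comp,
        ← assoc, hwu, zero_comp, sub_zero]
    · show (𝟙 A + wt ≫ κ) ≫ wt ≫ u⟦(1 : ℤ)⟧' = wt ≫ u⟦(1 : ℤ)⟧'
      rw [add_comp, id_comp, assoc, ← assoc κ, ← hκ, ← assoc, hw, zero_comp, add_zero]
    · show w ≫ κ ≫ O.m₃ = O.m₁ ≫ (𝟙 A + wt ≫ κ) ≫ O.m₃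
      rw [add_comp, id_comp, comp_add, hm, zero_add, assoc, ← assoc O.m₁, O.comm₂]

end Q5.GoodTri
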