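import Pool.Agent.Q5.GoodTri.Neeman

set_option autoImplicit false

/-!
# Good maps of triangles that are not Verdier good
-/

open CategoryTheory Category Limits Pretriangulated Triangulated Preadditive

namespace Q5.GoodTri

variable {C : Type*} [Category C] [HasZeroObject C] [HasShift C ℤ] [Preadditive C]
  [∀ n : ℤ, (shiftFunctor C n).Additive] [Pretriangulated C]

/-- The hypotheses under which there are several good fill-ins and only one Verdier good fill-in. -/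
structure TwistHyp {X Y X' Y' : C} (u : X ⟶ Y) (g : Y ⟶ Y') (f : X ⟶ X') (u' : X' ⟶ Y')
    (c : X' ⟶ X) (l : Y' ⟶ Y) (q : Y' ⟶ X') (p : Y ⟶ X) : Prop where
  comm : u ≫ g = f ≫ u'
  r₁ : c ≫ u = u' ≫ l
  r₂ : u' ≫ q ≫ u' = u' ≫ l ≫ g
  r₃ : f ≫ c = u ≫ p
  r₄ : c ≫ f ≫ c = 0
  r₅ : c ≫ f ≫ u' ≫ q = 0
  c₁ : ∀ t : Y ⟶ X, u ≫ t ≫ u ≫ g = 0 → u ≫ t = 0
  c₂ : ∀ t : Y' ⟶ X', (u ≫ g) ≫ t ≫ u' = 0 → (u ≫ g) ≫ t = 0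
  c₃ : ∀ t : X⟦(1 : ℤ)⟧ ⟶ Y', t = 0
  c₃' : ∀ t : X'⟦(1 : ℤ)⟧ ⟶ Y', t = 0
  c₄ : ∀ t : Y ⟶ X', u ≫ t = f ≫ (u' ≫ q - c ≫ f) → t ≫ u' ≠ 0

variable {X Y Z X' Y' Z' : C} {u : X ⟶ Y} {v : Y ⟶ Z} {w : Z ⟶ X⟦(1 : ℤ)⟧}
    {u' : X' ⟶ Y'} {v' : Y' ⟶ Z'} {w' : Z' ⟶ X'⟦(1 : ℤ)⟧} {f : X ⟶ X'} {g : Y ⟶ Y'}
    {c : X' ⟶ X} {l : Y' ⟶ Y} {q : Y' ⟶ X'} {p : Y ⟶ X}

/-- Verdier good fill-ins are unique. -/
theorem verdierGood_unique (H : TwistHyp u g f u' c l q p)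
    (hT : Triangle.mk u v w ∈ distTriang C) (hT' : Triangle.mk u' v' w' ∈ distTriang C)
    {h h₁ : Z ⟶ Z'} (hh : VerdierGood hT hT' f g h) (hh₁ : VerdierGood hT hT' f g h₁) :
    h = h₁ := by
  obtain ⟨A, Y₁, X₁, vt, wt, g', g'', f', f'', hA, hg, hf, comm, O₁, O₂, h⟩ := hh
  obtain ⟨A', Y₂, X₂, vt', wt', j', j'', k', k'', hA', hj, hk, comm', O₃, O₄, h'⟩ := hh₁
  obtain ⟨m₁, hm₁⟩ : ∃ m₁ : Z ⟶ A, m₁ = O₁.m₁ := ⟨_, rfl⟩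
  obtain ⟨m₂, hm₂⟩ : ∃ m₂ : A ⟶ Z', m₂ = O₂.m₃ := ⟨_, rfl⟩
  obtain ⟨m₃, hm₃⟩ : ∃ m₃ : Z ⟶ A', m₃ = O₃.m₁ := ⟨_, rfl⟩
  obtain ⟨m₄, hm₄⟩ : ∃ m₄ : A' ⟶ Z', m₄ = O₄.m₃ := ⟨_, rfl⟩
  have a₁ : v ≫ m₁ = g ≫ vt := by rw [hm₁]; exact O₁.comm₁
  have a₂ : m₁ ≫ wt = w := by rw [hm₁]; exact O₁.comm₂
  have a₃ : v ≫ m₃ = g ≫ vt' := by rw [hm₃]; exact O₃.comm₁
  have a₄ : m₃ ≫ wt' = w := by rw [hm₃]; exact O₃.comm₂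
  have b₁ : vt ≫ m₂ = v' := by rw [hm₂]; exact O₂.comm₃
  have b₂ : wt ≫ f⟦(1 : ℤ)⟧' = m₂ ≫ w' := by rw [hm₂]; exact O₂.comm₄
  have b₃ : vt' ≫ m₄ = v' := by rw [hm₄]; exact O₄.comm₃
  have b₄ : wt' ≫ f⟦(1 : ℤ)⟧' = m₄ ≫ w' := by rw [hm₄]; exact O₄.comm₄
  rw [h, h', ← hm₁, ← hm₂, ← hm₃, ← hm₄]
  obtain ⟨γ, hγ₁, hγ₂⟩ := complete_distinguished_triangle_morphism _ _ hA hA' (𝟙 X) (𝟙 Y')
    ((comp_id _).trans (id_comp _).symm)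
  change A ⟶ A' at γ
  replace hγ₁ : vt ≫ γ = vt' := hγ₁.trans (id_comp _)
  replace hγ₂ : wt = γ ≫ wt' := by
    have h1 : wt ≫ (𝟙 X)⟦(1 : ℤ)⟧' = γ ≫ wt' := hγ₂
    rw [CategoryTheory.Functor.map_id, comp_id] at h1
    exact h1
  have k₁ : m₁ ≫ γ = m₃ := by
    obtain ⟨x, hx⟩ : ∃ x : X⟦(1 : ℤ)⟧ ⟶ A', m₁ ≫ γ - m₃ = w ≫ x := by
      apply Triangle.yoneda_exact₃ _ hT
      show v ≫ (m₁ ≫ γ - m₃) = 0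
      rw [comp_sub, ← assoc, a₁, assoc, hγ₁, a₃, sub_self]
    have h1 : w ≫ x ≫ wt' = 0 := by
      rw [← assoc, ← hx, sub_comp, assoc, ← hγ₂, a₂, a₄, sub_self]
    obtain ⟨t', ht'⟩ : ∃ t' : Y⟦(1 : ℤ)⟧ ⟶ X⟦(1 : ℤ)⟧, x ≫ wt' = (-u⟦(1 : ℤ)⟧') ≫ t' :=
      Triangle.yoneda_exact₃ _ (rot_of_distTriang _ hT) (x ≫ wt') h1
    obtain ⟨t, rfl⟩ := (shiftFunctor C (1 : ℤ)).map_surjective t'
    have h2 : x ≫ wt' = (-(u ≫ t))⟦(1 : ℤ)⟧' := by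
      rw [ht', Functor.map_neg, Functor.map_comp, neg_comp]
    have h3 : u ≫ t ≫ u ≫ g = 0 := by
      apply (shiftFunctor C (1 : ℤ)).map_injective
      have h4 : wt' ≫ (u ≫ g)⟦(1 : ℤ)⟧' = 0 := comp_distTriang_mor_zero₃₁ _ hA'
      have h5 : (-(u ≫ t))⟦(1 : ℤ)⟧' ≫ (u ≫ g)⟦(1 : ℤ)⟧' = 0 := by
        rw [← h2, assoc, h4, comp_zero]
      rw [← Functor.map_comp, neg_comp, assoc, Functor.map_neg, neg_eq_zero] at h5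
      rw [h5, Functor.map_zero]
    have h6 : x ≫ wt' = 0 := by rw [h2, H.c₁ t h3, neg_zero, Functor.map_zero]
    obtain ⟨x', hx'⟩ : ∃ x' : X⟦(1 : ℤ)⟧ ⟶ Y', x = x' ≫ vt' :=
      Triangle.coyoneda_exact₃ _ hA' x h6
    have h7 : m₁ ≫ γ - m₃ = 0 := by
      rw [hx, hx', H.c₃ x', zero_comp, comp_zero]
    exact sub_eq_zero.mp h7
  have k₂ : γ ≫ m₄ = m₂ := by
    obtain ⟨y, hy⟩ : ∃ y : X⟦(1 : ℤ)⟧ ⟶ Z', γ ≫ m₄ - m₂ = wt ≫ y := by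
      apply Triangle.yoneda_exact₃ _ hA
      show vt ≫ (γ ≫ m₄ - m₂) = 0
      rw [comp_sub, ← assoc, hγ₁, b₁, b₃, sub_self]
    have h1 : wt ≫ y ≫ w' = 0 := by
      rw [← assoc, ← hy, sub_comp, assoc, ← b₄, ← b₂, ← assoc, ← hγ₂, sub_self]
    obtain ⟨t', ht'⟩ : ∃ t' : Y'⟦(1 : ℤ)⟧ ⟶ X'⟦(1 : ℤ)⟧,
        y ≫ w' = (-(u ≫ g)⟦(1 : ℤ)⟧') ≫ t' :=
      Triangle.yoneda_exact₃ _ (rot_of_distTriang _ hA) (y ≫ w') h1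
    obtain ⟨t, rfl⟩ := (shiftFunctor C (1 : ℤ)).map_surjective t'
    have h2 : y ≫ w' = (-((u ≫ g) ≫ t))⟦(1 : ℤ)⟧' := by
      rw [ht', Functor.map_neg, neg_comp, ← Functor.map_comp]
    have h3 : (u ≫ g) ≫ t ≫ u' = 0 := by
      apply (shiftFunctor C (1 : ℤ)).map_injective
      have h4 : w' ≫ u'⟦(1 : ℤ)⟧' = 0 := comp_distTriang_mor_zero₃₁ _ hT'
      have h5 : (-((u ≫ g) ≫ t))⟦(1 : ℤ)⟧' ≫ u'⟦(1 : ℤ)⟧' = 0 := by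
        rw [← h2, assoc, h4, comp_zero]
      rw [← Functor.map_comp, neg_comp, Functor.map_neg, neg_eq_zero, assoc] at h5
      rw [h5, Functor.map_zero]
    have h6 : y ≫ w' = 0 := by rw [h2, H.c₂ t h3, neg_zero, Functor.map_zero]
    obtain ⟨y', hy'⟩ : ∃ y' : X⟦(1 : ℤ)⟧ ⟶ Y', y = y' ≫ v' :=
      Triangle.coyoneda_exact₃ _ hT' y h6
    have h7 : γ ≫ m₄ - m₂ = 0 := by
      rw [hy, hy', H.c₃ y', zero_comp, comp_zero]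
    exact sub_eq_zero.mp h7
  rw [← k₁, ← k₂, assoc]

/-- There is a nonzero `δ` such that adding `δ` to a good fill-in gives a good fill-in. -/
theorem exists_twist (H : TwistHyp u g f u' c l q p)
    (hT : Triangle.mk u v w ∈ distTriang C) (hT' : Triangle.mk u' v' w' ∈ distTriang C) :
    ∃ δ : Z ⟶ Z', δ ≠ 0 ∧ v ≫ δ = 0 ∧ δ ≫ w' = 0 ∧
      ∀ h : Z ⟶ Z', w ≫ f⟦(1 : ℤ)⟧' = h ≫ w' → cone u v w u' v' w' f g h ∈ distTriang C →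
        cone u v w u' v' w' f g (h + δ) ∈ distTriang C := by
  obtain ⟨n, hn⟩ : ∃ n : X' ⟶ X', n = u' ≫ q - c ≫ f := ⟨_, rfl⟩
  have hnu : n ≫ u' = 0 := by
    rw [hn, sub_comp, assoc, H.r₂, assoc, ← H.comm, ← assoc c, H.r₁, assoc, sub_self]
  have hw' : w' ≫ u'⟦(1 : ℤ)⟧' = 0 := comp_distTriang_mor_zero₃₁ _ hT'
  have hv' : v' ≫ w' = 0 := comp_distTriang_mor_zero₂₃ _ hT'
  have hw : w ≫ u⟦(1 : ℤ)⟧' = 0 := comp_distTriang_mor_zero₃₁ _ hT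
  have hv : v ≫ w = 0 := comp_distTriang_mor_zero₂₃ _ hT
  obtain ⟨a, ha⟩ : ∃ a : X'⟦(1 : ℤ)⟧ ⟶ Z', n⟦(1 : ℤ)⟧' = a ≫ w' := by
    apply Triangle.coyoneda_exact₁ _ hT'
    show n⟦(1 : ℤ)⟧' ≫ u'⟦(1 : ℤ)⟧' = 0
    rw [← Functor.map_comp, hnu, Functor.map_zero]
  have hca : (c ≫ f)⟦(1 : ℤ)⟧' ≫ a = 0 := by
    obtain ⟨x, hx⟩ : ∃ x : X'⟦(1 : ℤ)⟧ ⟶ Y', (c ≫ f)⟦(1 : ℤ)⟧' ≫ a = x ≫ v' := by
      apply Triangle.coyoneda_exact₃ _ hT'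
      show ((c ≫ f)⟦(1 : ℤ)⟧' ≫ a) ≫ w' = 0
      rw [assoc, ← ha, ← Functor.map_comp]
      have h1 : (c ≫ f) ≫ n = 0 := by
        rw [hn, comp_sub, assoc, H.r₅, assoc, ← assoc f, ← assoc c, H.r₄, zero_comp, sub_zero]
      rw [h1, Functor.map_zero]
    rw [hx, H.c₃' x, zero_comp]
  have hfc : w ≫ f⟦(1 : ℤ)⟧' ≫ c⟦(1 : ℤ)⟧' = 0 := by
    rw [← Functor.map_comp, H.r₃, Functor.map_comp, ← assoc, hw, zero_comp]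
  have hcu : w' ≫ c⟦(1 : ℤ)⟧' ≫ u⟦(1 : ℤ)⟧' = 0 := by
    rw [← Functor.map_comp, H.r₁, Functor.map_comp, ← assoc, hw', zero_comp]
  have hcf : w' ≫ c⟦(1 : ℤ)⟧' ≫ f⟦(1 : ℤ)⟧' = -(w' ≫ n⟦(1 : ℤ)⟧') := by
    rw [hn, Functor.map_sub, Functor.map_comp, comp_sub, ← assoc w' (u'⟦(1 : ℤ)⟧'), hw',
      zero_comp, zero_sub, neg_neg, Functor.map_comp]
  have hna : w' ≫ a ≫ w' ≫ a = 0 := by
    have h1 : w' ≫ a ≫ w' ≫ a = (w' ≫ n⟦(1 : ℤ)⟧') ≫ a := by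
      rw [ha]
      simp only [assoc]
    rw [h1, ← neg_eq_iff_eq_neg.mpr hcf, neg_comp, assoc, assoc, ← Functor.map_comp_assoc, hca,
      comp_zero, neg_zero]
  have hnc : w' ≫ a ≫ w' ≫ c⟦(1 : ℤ)⟧' = 0 := by
    have h1 : w' ≫ a ≫ w' ≫ c⟦(1 : ℤ)⟧' = w' ≫ (n ≫ c)⟦(1 : ℤ)⟧' := by
      rw [Functor.map_comp, ha]
      simp only [assoc]
    have h2 : n ≫ c = u' ≫ q ≫ c := by
      rw [hn, sub_comp, assoc, assoc, H.r₄, sub_zero]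
    rw [h1, h2, Functor.map_comp, ← assoc, hw', zero_comp]
  refine ⟨w ≫ f⟦(1 : ℤ)⟧' ≫ a, ?_, ?_, ?_, ?_⟩
  · intro h0
    obtain ⟨t', ht'⟩ : ∃ t' : Y⟦(1 : ℤ)⟧ ⟶ Z', f⟦(1 : ℤ)⟧' ≫ a = (-u⟦(1 : ℤ)⟧') ≫ t' :=
      Triangle.yoneda_exact₃ _ (rot_of_distTriang _ hT) (f⟦(1 : ℤ)⟧' ≫ a) h0
    obtain ⟨t, ht⟩ := (shiftFunctor C (1 : ℤ)).map_surjective (-(t' ≫ w'))
    apply H.c₄ t
    · apply (shiftFunctor C (1 : ℤ)).map_injective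
      rw [← hn, Functor.map_comp, Functor.map_comp, ht, ha, ← assoc (f⟦(1 : ℤ)⟧'), ht']
      simp
    · apply (shiftFunctor C (1 : ℤ)).map_injective
      rw [Functor.map_comp, ht, neg_comp, assoc, hw', comp_zero, neg_zero, Functor.map_zero]
  · rw [← assoc, hv, zero_comp]
  · rw [assoc, assoc, ← ha, ← Functor.map_comp]
    have h1 : f ≫ n = u ≫ (g ≫ q - p ≫ f) := by
      rw [hn, comp_sub, comp_sub, ← assoc f u', ← H.comm, ← assoc f c, H.r₃]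
      simp only [assoc]
    rw [h1, Functor.map_comp, ← assoc, hw, zero_comp]
  · intro h hh hc
    let φ : (X⟦(1 : ℤ)⟧) ⊞ Z' ≅ (X⟦(1 : ℤ)⟧) ⊞ Z' :=
      { hom := biprod.desc biprod.inl ((w' ≫ c⟦(1 : ℤ)⟧') ≫ biprod.inl +
          (𝟙 _ + w' ≫ a) ≫ biprod.inr)
        inv := biprod.desc biprod.inl (-(w' ≫ c⟦(1 : ℤ)⟧') ≫ biprod.inl +
          (𝟙 _ - w' ≫ a) ≫ biprod.inr)
        hom_inv_id := by
          ext <;> simp [hna, hnc]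
        inv_hom_id := by
          ext <;> simp [hna, hnc] }
    refine isomorphic_distinguished _ hc _ (Iso.symm ?_)
    refine Triangle.isoMk _ _ (Iso.refl _) (Iso.refl _) φ ?_ ?_ ?_
    · exact (comp_id _).trans (id_comp _).symm
    · refine Eq.trans ?_ (id_comp _).symm
      show biprod.desc (-(w ≫ (biprod.inl : _ ⟶ (X⟦(1 : ℤ)⟧) ⊞ Z')) + h ≫ biprod.inr)
          (v' ≫ biprod.inr) ≫ φ.hom =
        biprod.desc (-(w ≫ (biprod.inl : _ ⟶ (X⟦(1 : ℤ)⟧) ⊞ Z')) +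
          (h + w ≫ f⟦(1 : ℤ)⟧' ≫ a) ≫ biprod.inr) (v' ≫ biprod.inr)
      ext
      · simp [φ, ← reassoc_of% hh, hfc]
      · simp [φ, ← reassoc_of% hh]
      · simp [φ, reassoc_of% hv']
      · simp [φ, reassoc_of% hv']
    · show biprod.desc (-(u⟦(1 : ℤ)⟧' ≫ (biprod.inl : Y ⟶ Y ⊞ X')⟦(1 : ℤ)⟧') +
          f⟦(1 : ℤ)⟧' ≫ biprod.inr⟦(1 : ℤ)⟧') (w' ≫ biprod.inr⟦(1 : ℤ)⟧') ≫
          (𝟙 (Y ⊞ X'))⟦(1 : ℤ)⟧' = φ.hom ≫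
        biprod.desc (-(u⟦(1 : ℤ)⟧' ≫ (biprod.inl : Y ⟶ Y ⊞ X')⟦(1 : ℤ)⟧') +
          f⟦(1 : ℤ)⟧' ≫ biprod.inr⟦(1 : ℤ)⟧') (w' ≫ biprod.inr⟦(1 : ℤ)⟧')
      rw [CategoryTheory.Functor.map_id, comp_id]
      ext
      · simp [φ]
      · simp only [φ, biprod.inr_desc, biprod.inr_desc_assoc, add_comp, assoc, biprod.inl_desc,
          comp_add, comp_neg, id_comp]
        rw [reassoc_of% hcu, reassoc_of% hcf, ha]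
        simp

/-- There is a good fill-in which is not Verdier good. -/
theorem exists_good_not_verdierGood [IsTriangulated C] (H : TwistHyp u g f u' c l q p)
    (hT : Triangle.mk u v w ∈ distTriang C) (hT' : Triangle.mk u' v' w' ∈ distTriang C) :
    ∃ h : Z ⟶ Z', v ≫ h = g ≫ v' ∧ w ≫ f⟦(1 : ℤ)⟧' = h ≫ w' ∧
      cone u v w u' v' w' f g h ∈ distTriang C ∧ ¬ VerdierGood hT hT' f g h := by
  obtain ⟨h, h₁, h₂, h₃⟩ := exists_good hT hT' f g H.comm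
  obtain ⟨δ, d₀, d₁, d₂, d₃⟩ := exists_twist H hT hT'
  by_cases hV : VerdierGood hT hT' f g h
  · refine ⟨h + δ, ?_, ?_, d₃ h h₂ h₃, ?_⟩
    · rw [comp_add, d₁, h₁, add_zero]
    · rw [add_comp, d₂, h₂, add_zero]
    · intro hV'
      apply d₀
      have := verdierGood_unique H hT hT' hV hV'
      simpa using this.symm
  · exact ⟨h, h₁, h₂, h₃, hV⟩

end Q5.GoodTri
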